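import Pool.Agent.J4H48.HB.Stm

/-! Project HB (MP_0e6b5f_nt), piece GRID: real coordinates of a number field. -/

set_option autoImplicit false

open NumberField

namespace Pool.Agent.J4H62.HB

open Pool.Agent.J4H48.HB

/-- real and imaginary part of one embedding for each place -/
noncomputable def crd (K : Type) [Field K] [NumberField K] :
    mixedEmbedding.index K → (K →+ ℝ)
  | Sum.inl w => Complex.reAddGroupHom.comp (w.1.embedding : K →+* ℂ).toAddMonoidHom
  | Sum.inr (w, j) =>
    if j = 0 then Complex.reAddGroupHom.comp (w.1.embedding : K →+* ℂ).toAddMonoidHom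
    else Complex.imAddGroupHom.comp (w.1.embedding : K →+* ℂ).toAddMonoidHom

open scoped Classical in
theorem card_index (K : Type) [Field K] [NumberField K] :
    Fintype.card (mixedEmbedding.index K) = Module.finrank ℚ K := by
  rw [← mixedEmbedding.finrank K,
    Module.finrank_eq_card_basis (mixedEmbedding.stdBasis K)]

/-- GRID. -/
theorem t_GRID : S_GRID := by
  classical
  intro K _ _
  obtain ⟨e⟩ : Nonempty (Fin (Module.finrank ℚ K) ≃ mixedEmbedding.index K) :=
    ⟨(Fintype.equivFinOfCardEq (card_index K)).symm⟩
  refine ⟨fun i => crd K (e i), fun τ => ?_⟩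
  have hn : ∀ y : K, ‖τ y‖ = ‖(InfinitePlace.mk τ).embedding y‖ := by
    intro y
    rw [InfinitePlace.norm_embedding_eq, InfinitePlace.apply]
  rcases InfinitePlace.isReal_or_isComplex (InfinitePlace.mk τ) with hw | hw
  · refine ⟨{e.symm (Sum.inl ⟨InfinitePlace.mk τ, hw⟩)}, fun y => ?_⟩
    have h1 : crd K (e (e.symm (Sum.inl ⟨InfinitePlace.mk τ, hw⟩))) y =
        ((InfinitePlace.mk τ).embedding y).re := by
      rw [Equiv.apply_symm_apply]; rfl
    have h2 : ‖(InfinitePlace.mk τ).embedding y‖ = |((InfinitePlace.mk τ).embedding y).re| := by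
      rw [← InfinitePlace.embedding_of_isReal_apply hw y, Complex.ofReal_re, Complex.norm_real,
        Real.norm_eq_abs]
    constructor
    · rw [Finset.sum_singleton, h1, hn, h2]
    · intro i hi
      rw [Finset.mem_singleton] at hi
      subst hi
      rw [h1, hn, h2]
  · refine ⟨{e.symm (Sum.inr (⟨InfinitePlace.mk τ, hw⟩, 0)),
      e.symm (Sum.inr (⟨InfinitePlace.mk τ, hw⟩, 1))}, fun y => ?_⟩
    have h1 : crd K (e (e.symm (Sum.inr (⟨InfinitePlace.mk τ, hw⟩, 0)))) y =
        ((InfinitePlace.mk τ).embedding y).re := by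
      rw [Equiv.apply_symm_apply]; rfl
    have h2 : crd K (e (e.symm (Sum.inr (⟨InfinitePlace.mk τ, hw⟩, 1)))) y =
        ((InfinitePlace.mk τ).embedding y).im := by
      rw [Equiv.apply_symm_apply]; rfl
    constructor
    · rw [Finset.sum_pair (by
        intro h
        have := e.symm.injective h
        simp at this), h1, h2, hn]
      exact Complex.norm_le_abs_re_add_abs_im _
    · intro i hi
      rw [Finset.mem_insert, Finset.mem_singleton] at hi
      rcases hi with hi | hi
      · subst hi
        rw [h1, hn]
        exact Complex.abs_re_le_norm _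
      · subst hi
        rw [h2, hn]
        exact Complex.abs_im_le_norm _

end Pool.Agent.J4H62.HB
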