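import Pool.Agent.J4H48.HB.Stm
import Pool.Agent.J4H79.HK.Cell

/-! Project HB (MP_0e6b5f_nt), piece MCELL: monotone cells on a real interval. -/

set_option autoImplicit false

open Polynomial

namespace Pool.Agent.J4H62.HB

open Pool.Agent.J4H48.HB

/-- the signed cell of a real number -/
noncomputable def cel (θ x : ℝ) : ℤ := if 0 ≤ x then ⌊x ^ θ⌋ else -1 - ⌊(-x) ^ θ⌋

theorem cel_nonneg {θ x : ℝ} (hx : 0 ≤ x) : cel θ x = ⌊x ^ θ⌋ := if_pos hx

theorem cel_neg {θ x : ℝ} (hx : x < 0) : cel θ x = -1 - ⌊(-x) ^ θ⌋ := if_neg (not_le.2 hx)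

theorem fl_nonneg {θ x : ℝ} (hx : 0 ≤ x) : 0 ≤ ⌊x ^ θ⌋ :=
  Int.floor_nonneg.2 (Real.rpow_nonneg hx θ)

theorem cel_mono {θ : ℝ} (h0 : 0 < θ) : Monotone (cel θ) := by
  intro x y hxy
  by_cases hx : 0 ≤ x
  · rw [cel_nonneg hx, cel_nonneg (hx.trans hxy)]
    exact Int.floor_le_floor (Real.rpow_le_rpow hx hxy h0.le)
  · push Not at hx
    rw [cel_neg hx]
    by_cases hy : 0 ≤ y
    · rw [cel_nonneg hy]
      have h1 := fl_nonneg (θ := θ) hy
      have h2 := fl_nonneg (θ := θ) (x := -x) (by linarith)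
      linarith
    · push Not at hy
      rw [cel_neg hy]
      have := Int.floor_le_floor (Real.rpow_le_rpow (x := -y) (y := -x) (z := θ) (by linarith)
        (by linarith) h0.le)
      linarith

theorem sub_le {θ s t : ℝ} (h0 : 0 < θ) (h1 : θ < 1) (hs : 0 ≤ s) (hst : s ≤ t) :
    t ^ θ - s ^ θ ≤ (t - s) ^ θ := by
  have h := Real.rpow_add_le_add_rpow (p := θ) (a := s) (b := t - s) hs (by linarith) h0.le h1.le
  rw [show s + (t - s) = t by ring] at h
  linarith

theorem cel_diff {θ a l x : ℝ} (h0 : 0 < θ) (h1 : θ < 1) (hl : 1 ≤ l) (hax : a ≤ x)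
    (hxl : x ≤ a + l) : ((cel θ x - cel θ a : ℤ) : ℝ) ≤ 3 * l ^ θ := by
  have hl1 : 1 ≤ l ^ θ := Real.one_le_rpow hl h0.le
  have hle : ∀ u : ℝ, 0 ≤ u → u ≤ l → u ^ θ ≤ l ^ θ := fun u hu hul =>
    Real.rpow_le_rpow hu hul h0.le
  by_cases ha : 0 ≤ a
  · rw [cel_nonneg ha, cel_nonneg (ha.trans hax)]
    push_cast
    have h2 := Int.floor_le (x ^ θ)
    have h3 := Int.lt_floor_add_one (a ^ θ)
    have h4 := sub_le h0 h1 ha hax
    have h5 := hle (x - a) (by linarith) (by linarith)
    linarith
  · push Not at ha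
    rw [cel_neg ha]
    by_cases hx : 0 ≤ x
    · rw [cel_nonneg hx]
      push_cast
      have h2 := Int.floor_le (x ^ θ)
      have h3 := Int.floor_le ((-a) ^ θ)
      have h4 := hle x hx (by linarith)
      have h5 := hle (-a) (by linarith) (by linarith)
      linarith
    · push Not at hx
      rw [cel_neg hx]
      push_cast
      have h2 := Int.floor_le ((-a) ^ θ)
      have h3 := Int.lt_floor_add_one ((-x) ^ θ)
      have h4 := sub_le h0 h1 (s := -x) (t := -a) (by linarith) (by linarith)
      have h5 := hle (-a - -x) (by linarith) (by linarith)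
      linarith

/-- MCELL. -/
theorem t_MCELL : S_MCELL := by
  intro θ h0 h1
  obtain ⟨K, hK1, hK⟩ := Pool.Agent.J4H79.HK.t_CELL θ h0 h1
  refine ⟨max 3 K, le_max_of_le_right hK1, fun a l hl =>
    ⟨fun x => (cel θ x - cel θ a).toNat, ?_, ?_, ?_⟩⟩
  · intro x hax hxl
    have hm := cel_mono h0 hax
    have h2 := cel_diff h0 h1 hl hax hxl
    have h3 : (((cel θ x - cel θ a).toNat : ℕ) : ℝ) = ((cel θ x - cel θ a : ℤ) : ℝ) := by
      have : (((cel θ x - cel θ a).toNat : ℕ) : ℤ) = cel θ x - cel θ a :=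
        Int.toNat_of_nonneg (by linarith)
      exact_mod_cast congrArg (Int.cast (R := ℝ)) this
    show (((cel θ x - cel θ a).toNat : ℕ) : ℝ) ≤ _
    rw [h3]
    exact h2.trans (mul_le_mul_of_nonneg_right (le_max_left _ _) (by positivity))
  · intro x y hax hxy hyl
    exact Int.toNat_le_toNat (by linarith [cel_mono h0 hxy])
  · intro x y hax hxl hay hyl hxy
    have hc : cel θ x = cel θ y := by
      have h2 := cel_mono h0 hax
      have h3 := cel_mono h0 hay
      have h4 : (cel θ x - cel θ a).toNat = (cel θ y - cel θ a).toNat := hxy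
      omega
    -- the symmetric core
    have core : ∀ u v : ℝ, u ≤ v → cel θ u = cel θ v →
        |u - v| ≤ max 3 K * (max |u| |v|) ^ (1 - θ) := by
      intro u v huv he
      by_cases hu : 0 ≤ u
      · have hv := hu.trans huv
        rw [cel_nonneg hu, cel_nonneg hv] at he
        have h := hK u v hu huv he
        rw [abs_of_nonneg hu, abs_of_nonneg hv, max_eq_right huv, abs_sub_comm,
          abs_of_nonneg (by linarith : (0 : ℝ) ≤ v - u)]
        exact h.trans (mul_le_mul_of_nonneg_right (le_max_right _ _) (Real.rpow_nonneg hv _))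
      · push Not at hu
        by_cases hv : 0 ≤ v
        · exfalso
          rw [cel_neg hu, cel_nonneg hv] at he
          have h1 := fl_nonneg (θ := θ) hv
          have h2 := fl_nonneg (θ := θ) (x := -u) (by linarith)
          omega
        · push Not at hv
          rw [cel_neg hu, cel_neg hv] at he
          have h := hK (-v) (-u) (by linarith) (by linarith) (by omega)
          rw [abs_of_neg hu, abs_of_neg hv, max_eq_left (by linarith : -v ≤ -u), abs_sub_comm,
            abs_of_nonneg (by linarith : (0 : ℝ) ≤ v - u)]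
          have h5 : -u - -v = v - u := by ring
          rw [h5] at h
          exact h.trans (mul_le_mul_of_nonneg_right (le_max_right _ _)
            (Real.rpow_nonneg (by linarith) _))
    rcases le_total x y with h | h
    · exact core x y h hc
    · rw [abs_sub_comm, max_comm |x| |y|]
      exact core y x h hc.symm

end Pool.Agent.J4H62.HB
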