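import Pool.Agent.J4H48.HB.Stm

/-! Project HB (MP_0e6b5f_nt), piece SHARP2: the exponent for boxes is best possible. -/

set_option autoImplicit false

open Polynomial NumberField IntermediateField

namespace Pool.Agent.J4H62.HB

open Pool.Agent.J4H48.HB

theorem hasPer_root (K : Type) [Field K] [NumberField K] (B q : ℕ) (hB : 1 ≤ B) (z : 𝓞 K) :
    HasPer K (X ^ (B * q) + C (-(z ^ q))) 1 (-1) B := by
  obtain ⟨y, hy⟩ := IsAlgClosed.exists_pow_nat_eq
    (algebraMap K (AlgebraicClosure K) (algebraMap (𝓞 K) K z)) (show 0 < B by omega)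
  have hroot : aeval y (X ^ B - C (algebraMap (𝓞 K) K z) : K[X]) = 0 := by
    simp [hy]
  have hmon : (X ^ B - C (algebraMap (𝓞 K) K z) : K[X]).Monic := monic_X_pow_sub_C _ (by omega)
  have hint : IsIntegral K y := ⟨_, hmon, by simpa [aeval_def] using hroot⟩
  refine ⟨K⟮y⟯, IntermediateField.adjoin.finiteDimensional hint, ?_, (y, y),
    IntermediateField.mem_adjoin_simple_self K y, IntermediateField.mem_adjoin_simple_self K y,
    1, le_rfl, ?_⟩
  · rw [IntermediateField.adjoin.finrank hint]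
    refine (Polynomial.natDegree_le_of_dvd (minpoly.dvd K y hroot) hmon.ne_zero).trans ?_
    rw [natDegree_X_pow_sub_C]
  · rw [Function.iterate_one]
    have h1 : aeval y ((X ^ (B * q) + C (-(z ^ q)) : (𝓞 K)[X]).map (algebraMap (𝓞 K) K)) = 0 := by
      rw [Polynomial.map_add, Polynomial.map_pow, Polynomial.map_X, Polynomial.map_C, map_add,
        map_pow, aeval_X, aeval_C, pow_mul, hy, map_neg, map_pow, map_neg, map_pow]
      ring
    simp only [henon]
    rw [h1]
    simp

section norm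

variable {K : Type} [Field K] [NumberField K] {ι : Type} [Fintype ι]
  (ω : Module.Basis ι ℤ (𝓞 K))

/-- the sum of the absolute values of the coordinates -/
noncomputable def nrm (x : 𝓞 K) : ℤ := ∑ i, |ω.repr x i|

theorem nrm_nonneg (x : 𝓞 K) : 0 ≤ nrm ω x := Finset.sum_nonneg fun i _ => abs_nonneg _

theorem abs_le_nrm (x : 𝓞 K) (i : ι) : |ω.repr x i| ≤ nrm ω x :=
  Finset.single_le_sum (f := fun i => |ω.repr x i|) (fun j _ => abs_nonneg _) (Finset.mem_univ i)

theorem nrm_mul : ∃ A : ℤ, 1 ≤ A ∧ ∀ u v : 𝓞 K, nrm ω (u * v) ≤ A * nrm ω u * nrm ω v := by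
  refine ⟨1 + ∑ i, ∑ j, nrm ω (ω i * ω j), ?_, fun u v => ?_⟩
  · have : 0 ≤ ∑ i, ∑ j, nrm ω (ω i * ω j) :=
      Finset.sum_nonneg fun i _ => Finset.sum_nonneg fun j _ => nrm_nonneg ω _
    linarith
  · set A : ℤ := ∑ i, ∑ j, nrm ω (ω i * ω j) with hA
    have hAij : ∀ i j, nrm ω (ω i * ω j) ≤ A := fun i j =>
      (Finset.single_le_sum (f := fun j => nrm ω (ω i * ω j)) (fun j _ => nrm_nonneg ω _)
        (Finset.mem_univ j)).trans
      (Finset.single_le_sum (f := fun i => ∑ j, nrm ω (ω i * ω j))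
        (fun i _ => Finset.sum_nonneg fun j _ => nrm_nonneg ω _) (Finset.mem_univ i))
    have huv : u * v = ∑ i, ∑ j, (ω.repr u i * ω.repr v j) • (ω i * ω j) := by
      conv_lhs => rw [← ω.sum_repr u, ← ω.sum_repr v]
      rw [Finset.sum_mul_sum]
      refine Finset.sum_congr rfl fun i _ => Finset.sum_congr rfl fun j _ => ?_
      rw [smul_mul_smul_comm]
    have hl : ∀ l, |ω.repr (u * v) l| ≤
        ∑ i, ∑ j, |ω.repr u i| * |ω.repr v j| * |ω.repr (ω i * ω j) l| := by
      intro l
      rw [huv]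
      simp only [map_sum, map_smul, Finsupp.coe_finset_sum, Finset.sum_apply, Finsupp.smul_apply,
        smul_eq_mul]
      refine (Finset.abs_sum_le_sum_abs _ _).trans (Finset.sum_le_sum fun i _ => ?_)
      refine (Finset.abs_sum_le_sum_abs _ _).trans (Finset.sum_le_sum fun j _ => ?_)
      rw [abs_mul, abs_mul]
    calc nrm ω (u * v) ≤ ∑ l, ∑ i, ∑ j, |ω.repr u i| * |ω.repr v j| * |ω.repr (ω i * ω j) l| :=
          Finset.sum_le_sum fun l _ => hl l
      _ = ∑ i, ∑ j, |ω.repr u i| * |ω.repr v j| * nrm ω (ω i * ω j) := by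
          rw [Finset.sum_comm]
          refine Finset.sum_congr rfl fun i _ => ?_
          rw [Finset.sum_comm]
          refine Finset.sum_congr rfl fun j _ => ?_
          rw [nrm, Finset.mul_sum]
      _ ≤ ∑ i, ∑ j, |ω.repr u i| * |ω.repr v j| * (1 + A) := by
          refine Finset.sum_le_sum fun i _ => Finset.sum_le_sum fun j _ => ?_
          exact mul_le_mul_of_nonneg_left (by linarith [hAij i j]) (by positivity)
      _ = (1 + A) * nrm ω u * nrm ω v := by
          rw [nrm, nrm, mul_assoc, Finset.sum_mul_sum, Finset.mul_sum]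
          refine Finset.sum_congr rfl fun i _ => ?_
          rw [Finset.mul_sum]
          refine Finset.sum_congr rfl fun j _ => ?_
          ring

theorem nrm_pow {A : ℤ} (hA1 : 1 ≤ A) (hA : ∀ u v : 𝓞 K, nrm ω (u * v) ≤ A * nrm ω u * nrm ω v)
    (z : 𝓞 K) (q : ℕ) (hq : 1 ≤ q) : nrm ω (z ^ q) ≤ (A * nrm ω z) ^ q := by
  induction q, hq using Nat.le_induction with
  | base =>
    rw [pow_one, pow_one]
    nlinarith [nrm_nonneg ω z]
  | succ n hn ih =>
    rw [pow_succ]
    have h0 := nrm_nonneg ω z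
    calc nrm ω (z ^ n * z) ≤ A * nrm ω (z ^ n) * nrm ω z := hA _ _
      _ ≤ A * (A * nrm ω z) ^ n * nrm ω z := by
          refine mul_le_mul_of_nonneg_right (mul_le_mul_of_nonneg_left ih (by linarith)) h0
      _ = (A * nrm ω z) ^ (n + 1) := by ring

theorem box_finite (a : ι → ℤ) (m : ℕ) : (Box ω a m).Finite := by
  have h : (Set.pi Set.univ (fun i => Set.Ico (a i) (a i + m)) : Set (ι → ℤ)).Finite :=
    Set.Finite.pi fun i => Set.finite_Ico _ _
  refine (h.preimage (f := ω.equivFun) ω.equivFun.injective.injOn).subset ?_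
  intro x hx
  rw [Set.mem_preimage, Set.mem_pi]
  intro i _
  exact hx i

end norm

/-- SHARP2. -/
theorem t_SHARP2 : S_SHARP2 := by
  classical
  intro K _ _ ι _ ω B q hB hq _
  obtain ⟨A, hA1, hA⟩ := nrm_mul ω
  have hk : Fintype.card ι = Module.finrank ℚ K := by
    rw [← RingOfIntegers.rank K, Module.finrank_eq_card_basis ω]
  set k : ℕ := Fintype.card ι with hkdef
  have hk1 : 1 ≤ k := by
    rw [hk]
    exact Module.finrank_pos
  have hAR : (1 : ℝ) ≤ (A : ℝ) := by exact_mod_cast hA1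
  have hkR : (1 : ℝ) ≤ (k : ℝ) := by exact_mod_cast hk1
  have hqR : (1 : ℝ) ≤ (q : ℝ) := by exact_mod_cast hq
  set D : ℝ := 2 * A * k with hD
  have hD2 : 2 ≤ D := by rw [hD]; nlinarith
  refine ⟨1 / (q * D ^ k), by positivity, fun m hm => ?_⟩
  have hmR : (1 : ℝ) ≤ (m : ℝ) := by exact_mod_cast hm
  set S : Set (𝓞 K) := {x : 𝓞 K | x ∈ Box ω (fun _ => -(m : ℤ)) (2 * m) ∧
      HasPer K (X ^ (B * q) + C x) 1 (-1) B} with hS
  have hSfin : S.Finite := (box_finite ω _ _).subset fun x hx => hx.1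
  set s : ℝ := (m : ℝ) ^ ((1 : ℝ) / q) / D with hs
  have hs0 : 0 ≤ s := by positivity
  set t : ℕ := ⌊s⌋₊ with ht
  have hts : (t : ℝ) ≤ s := Nat.floor_le hs0
  have hst : s < t + 1 := Nat.lt_floor_add_one s
  -- the family
  let f : (ι → ℕ) → 𝓞 K := fun n => ω.equivFun.symm (fun i => (n i : ℤ))
  have hf : Function.Injective f := by
    intro n n' h
    have := ω.equivFun.symm.injective h
    funext i
    exact_mod_cast congrFun this i
  have hrep : ∀ n i, ω.repr (f n) i = n i := by
    intro n i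
    have := ω.equivFun.apply_symm_apply (fun i => (n i : ℤ))
    exact congrFun this i
  set Z : Finset (𝓞 K) := (Fintype.piFinset (fun _ : ι => Finset.range (t + 1))).image f with hZ
  have hZc : Z.card = (t + 1) ^ k := by
    rw [hZ, Finset.card_image_of_injective _ hf, Fintype.card_piFinset]
    simp [hkdef]
  have hnrm : ∀ z ∈ Z, nrm ω z ≤ k * t := by
    intro z hz
    rw [hZ, Finset.mem_image] at hz
    obtain ⟨n, hn, rfl⟩ := hz
    rw [Fintype.mem_piFinset] at hn
    calc nrm ω (f n) ≤ ∑ _i : ι, (t : ℤ) := by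
          refine Finset.sum_le_sum fun i _ => ?_
          rw [hrep]
          have := hn i
          rw [Finset.mem_range] at this
          rw [abs_of_nonneg (by positivity)]
          exact_mod_cast Nat.lt_succ_iff.1 this
      _ = k * t := by simp [hkdef]
  have himg : ((Z.image fun z => -(z ^ q) : Finset (𝓞 K)) : Set (𝓞 K)) ⊆ S := by
    intro x hx
    rw [Finset.mem_coe, Finset.mem_image] at hx
    obtain ⟨z, hz, rfl⟩ := hx
    refine ⟨fun i => ?_, hasPer_root K B q hB z⟩
    have h1 : nrm ω (z ^ q) ≤ (A * nrm ω z) ^ q := nrm_pow ω hA1 hA z q hq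
    have h2 : (A * nrm ω z) ^ q ≤ (A * (k * t)) ^ q := by
      refine pow_le_pow_left₀ (mul_nonneg (by linarith) (nrm_nonneg ω z)) ?_ q
      exact mul_le_mul_of_nonneg_left (hnrm z hz) (by linarith)
    have h3 : (((A * (k * t)) ^ q : ℤ) : ℝ) < (m : ℝ) := by
      push_cast
      have h4 : (A : ℝ) * (k * t) ≤ (m : ℝ) ^ ((1 : ℝ) / q) / 2 := by
        calc (A : ℝ) * (k * t) ≤ A * (k * s) := by gcongr
          _ = (m : ℝ) ^ ((1 : ℝ) / q) / 2 := by
            rw [hs, hD]
            field_simp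
      have h5 : (0 : ℝ) < (m : ℝ) ^ ((1 : ℝ) / q) := by positivity
      have h6 : ((m : ℝ) ^ ((1 : ℝ) / q)) ^ q = m := by
        rw [← Real.rpow_natCast, ← Real.rpow_mul (by positivity), one_div,
          inv_mul_cancel₀ (by positivity), Real.rpow_one]
      calc ((A : ℝ) * (k * t)) ^ q ≤ ((m : ℝ) ^ ((1 : ℝ) / q) / 2) ^ q :=
            pow_le_pow_left₀ (by positivity) h4 q
        _ < ((m : ℝ) ^ ((1 : ℝ) / q)) ^ q :=
            pow_lt_pow_left₀ (by linarith) (by positivity) (by omega)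
        _ = m := h6
    have h3' : (A * (k * t)) ^ q < (m : ℤ) := by exact_mod_cast h3
    have h7 : |ω.repr (z ^ q) i| < (m : ℤ) := (abs_le_nrm ω _ i).trans_lt (by linarith)
    rw [abs_lt] at h7
    have h8 : ω.repr (-(z ^ q)) i = -(ω.repr (z ^ q) i) := by
      rw [map_neg, Finsupp.neg_apply]
    rw [h8]
    push_cast
    constructor <;> linarith [h7.1, h7.2]
  have hcard : Z.card ≤ q * (Z.image fun z => -(z ^ q)).card := by
    refine Finset.card_le_mul_card_image Z q fun a _ => ?_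
    have hsub : (Z.filter fun z => -(z ^ q) = a) ⊆ (nthRoots q (-a)).toFinset := by
      intro z hz
      rw [Finset.mem_filter] at hz
      rw [Multiset.mem_toFinset, mem_nthRoots (by omega)]
      rw [← hz.2, neg_neg]
    exact (Finset.card_le_card hsub).trans
      ((Multiset.toFinset_card_le _).trans (card_nthRoots q _))
  have h9 := Set.ncard_le_ncard himg hSfin
  rw [Set.ncard_coe_finset] at h9
  have h10 : ((t : ℝ) + 1) ^ k ≤ q * (S.ncard : ℝ) := by
    have : Z.card ≤ q * S.ncard := hcard.trans (Nat.mul_le_mul_left q h9)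
    rw [hZc] at this
    exact_mod_cast this
  have h11 : (m : ℝ) ^ ((k : ℝ) / q) = (D * s) ^ k := by
    rw [hs, mul_div_cancel₀ _ (by positivity), ← Real.rpow_natCast, ← Real.rpow_mul (by positivity)]
    congr 1
    ring
  rw [← hk, h11, mul_pow D s k]
  have h12 : s ^ k ≤ ((t : ℝ) + 1) ^ k := pow_le_pow_left₀ hs0 hst.le k
  calc 1 / ((q : ℝ) * D ^ k) * (D ^ k * s ^ k) = s ^ k / q := by
        field_simp
    _ ≤ (q * (S.ncard : ℝ)) / q := by
        gcongr
        exact h12.trans h10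
    _ = (S.ncard : ℝ) := by field_simp

end Pool.Agent.J4H62.HB
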